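import Pool.Agent.Q237.TC.LWa
import Pool.Agent.Y604.NK.MEAS

/-!
# Project TC (helper130), job LW: the limit of the smallest singular values
-/

set_option autoImplicit false

namespace Pool.Agent.Q237.TC

open MeasureTheory Set Metric Filter Topology
open scoped InnerProductSpace ENNReal NNReal ComplexConjugate
open Pool.Agent.Y283.NK (ct ea IsMul HasHyp Repr fr)
open Pool.Agent.Q130.TC
open Pool.Agent.Y604.NK (meas_ct meas_coe meas_ea meas_ea2 ea_ball)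

variable {S : Type} [MeasurableSpace S] {μ : Measure S}

/-- Cauchy and Schwarz for the Cauchy transform -/
theorem ct_sq_le {φ : S → ℂ} (hφ : Measurable φ) (g f : Lp ℂ 2 μ) (z : ℂ) :
    ‖ct φ g f z‖ₑ ^ 2 ≤ ea φ g z * ea φ f z := by
  set k : S → ℝ≥0∞ := fun s => (‖z - φ s‖ₑ⁻¹) ^ (1 / 2 : ℝ) with hk
  have hkm : Measurable k := ((measurable_const.sub hφ).enorm.inv).pow_const _
  have hk2 : ∀ s, k s ^ 2 = ‖z - φ s‖ₑ⁻¹ := fun s => by
    simp only [hk]
    rw [← ENNReal.rpow_natCast, ← ENNReal.rpow_mul]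
    norm_num
  have h1 : ‖ct φ g f z‖ₑ ≤ ∫⁻ s, ((fun s => ‖g s‖ₑ * k s) * fun s => ‖f s‖ₑ * k s) s ∂μ := by
    unfold ct
    refine (enorm_integral_le_lintegral_enorm _).trans (lintegral_mono fun s => ?_)
    have e1 : ‖conj (g s)‖ₑ = ‖g s‖ₑ := by rw [← ofReal_norm, ← ofReal_norm, RCLike.norm_conj]
    have e2 : ‖(z - φ s)⁻¹‖ₑ ≤ ‖z - φ s‖ₑ⁻¹ := by
      by_cases h : z - φ s = 0
      · simp [h]
      · rw [enorm_inv h]
    rw [enorm_mul, enorm_mul, e1]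
    calc ‖g s‖ₑ * ‖f s‖ₑ * ‖(z - φ s)⁻¹‖ₑ ≤ ‖g s‖ₑ * ‖f s‖ₑ * ‖z - φ s‖ₑ⁻¹ := by gcongr
      _ = (‖g s‖ₑ * k s) * (‖f s‖ₑ * k s) := by rw [← hk2 s]; ring
  have h2 := ENNReal.lintegral_mul_le_Lp_mul_Lq μ Real.HolderConjugate.two_two
    ((meas_coe g).enorm.mul hkm).aemeasurable ((meas_coe f).enorm.mul hkm).aemeasurable
  have h3 : ∀ x : Lp ℂ 2 μ, ∫⁻ s, (‖x s‖ₑ * k s) ^ (2:ℝ) ∂μ = ea φ x z := by
    intro x
    unfold ea
    refine lintegral_congr fun s => ?_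
    have : (2:ℝ) = ((2:ℕ) : ℝ) := by norm_num
    rw [this, ENNReal.rpow_natCast, mul_pow, hk2]
  have h4 : ∀ x : Lp ℂ 2 μ, (∫⁻ s, ((fun s => ‖x s‖ₑ) * k) s ^ (2:ℝ) ∂μ) = ea φ x z := h3
  rw [h4 g, h4 f] at h2
  have h5 := pow_le_pow_left' (h1.trans h2) 2
  refine h5.trans (le_of_eq ?_)
  rw [mul_pow, ← ENNReal.rpow_natCast, ← ENNReal.rpow_natCast, ← ENNReal.rpow_mul,
    ← ENNReal.rpow_mul]
  norm_num

theorem tail_le (A : ℕ → ℝ≥0∞) (m n : ℕ) :
    ∑ i ∈ Finset.range n, (if m ≤ i then A i else 0) ≤ ∑' k, A (k + m) := by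
  rw [← Finset.sum_filter]
  have h1 : Finset.filter (fun i => m ≤ i) (Finset.range n) = Finset.Ico m n := by
    ext i
    simp only [Finset.mem_filter, Finset.mem_range, Finset.mem_Ico]
    tauto
  rw [h1, Finset.sum_Ico_eq_sum_range]
  calc ∑ k ∈ Finset.range (n - m), A (m + k) = ∑ k ∈ Finset.range (n - m), A (k + m) :=
        Finset.sum_congr rfl fun k _ => by rw [add_comm]
    _ ≤ ∑' k, A (k + m) := ENNReal.sum_le_tsum _

theorem Gm_sum_le (F : ℕ → ℕ → ℂ) (A B : ℕ → ℝ≥0∞) (hF : ∀ i j, ‖F i j‖ₑ ^ 2 ≤ A i * B j)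
    (m n : ℕ) :
    ∑ i ∈ Finset.range n, ∑ j ∈ Finset.range n, ‖Gm F m i j‖ₑ ^ 2 ≤
      (∑' k, A (k + m)) * (∑' j, B j) + (∑' i, A i) * ∑' k, B (k + m) := by
  have h1 : ∀ i j, ‖Gm F m i j‖ₑ ^ 2 ≤
      (if m ≤ i then A i else 0) * B j + A i * (if m ≤ j then B j else 0) := by
    intro i j
    unfold Gm
    by_cases hi : m ≤ i
    · rw [if_pos (Or.inl hi), if_pos hi]
      exact (hF i j).trans le_self_add
    · by_cases hj : m ≤ j
      · rw [if_pos (Or.inr hj), if_neg hi, if_pos hj, zero_mul, zero_add]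
        exact hF i j
      · rw [if_neg (by tauto)]
        simp
  calc ∑ i ∈ Finset.range n, ∑ j ∈ Finset.range n, ‖Gm F m i j‖ₑ ^ 2
      ≤ ∑ i ∈ Finset.range n, ∑ j ∈ Finset.range n,
          ((if m ≤ i then A i else 0) * B j + A i * (if m ≤ j then B j else 0)) :=
        Finset.sum_le_sum fun i _ => Finset.sum_le_sum fun j _ => h1 i j
    _ = (∑ i ∈ Finset.range n, (if m ≤ i then A i else 0)) * (∑ j ∈ Finset.range n, B j) +
          (∑ i ∈ Finset.range n, A i) * ∑ j ∈ Finset.range n, (if m ≤ j then B j else 0) := by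
        rw [Finset.sum_mul_sum, Finset.sum_mul_sum, ← Finset.sum_add_distrib]
        exact Finset.sum_congr rfl fun i _ => Finset.sum_add_distrib
    _ ≤ _ := by
        refine add_le_add (mul_le_mul' (tail_le A m n) (ENNReal.sum_le_tsum _))
          (mul_le_mul' (ENNReal.sum_le_tsum _) (tail_le B m n))

/-- the comparison error -/
noncomputable def er (A B : ℕ → ℝ≥0∞) (m : ℕ) : ℝ :=
  √((∑' k, A (k + m)) * (∑' j, B j) + (∑' i, A i) * ∑' k, B (k + m)).toReal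

theorem tail_le_all (A : ℕ → ℝ≥0∞) (m : ℕ) : ∑' k, A (k + m) ≤ ∑' k, A k :=
  ENNReal.tsum_comp_le_tsum_of_injective (add_left_injective m) A

theorem er_fin {A B : ℕ → ℝ≥0∞} (hA : ∑' i, A i ≠ ⊤) (hB : ∑' i, B i ≠ ⊤) (m : ℕ) :
    (∑' k, A (k + m)) * (∑' j, B j) + (∑' i, A i) * ∑' k, B (k + m) ≠ ⊤ :=
  ENNReal.add_ne_top.2 ⟨ENNReal.mul_ne_top (ne_top_of_le_ne_top hA (tail_le_all A m)) hB,
    ENNReal.mul_ne_top hA (ne_top_of_le_ne_top hB (tail_le_all B m))⟩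

theorem Gm_er (F : ℕ → ℕ → ℂ) (A B : ℕ → ℝ≥0∞) (hF : ∀ i j, ‖F i j‖ₑ ^ 2 ≤ A i * B j)
    (hA : ∑' i, A i ≠ ⊤) (hB : ∑' i, B i ≠ ⊤) (m n : ℕ) :
    ∑ i ∈ Finset.range n, ∑ j ∈ Finset.range n, ‖Gm F m i j‖ ^ 2 ≤ er A B m ^ 2 := by
  unfold er
  rw [Real.sq_sqrt ENNReal.toReal_nonneg]
  refine (ENNReal.ofReal_le_iff_le_toReal (er_fin hA hB m)).1 ?_
  rw [ENNReal.ofReal_sum_of_nonneg fun i _ => Finset.sum_nonneg fun j _ => sq_nonneg _]
  refine le_trans (le_of_eq ?_) (Gm_sum_le F A B hF m n)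
  refine Finset.sum_congr rfl fun i _ => ?_
  rw [ENNReal.ofReal_sum_of_nonneg fun j _ => sq_nonneg _]
  refine Finset.sum_congr rfl fun j _ => ?_
  rw [ENNReal.ofReal_pow (norm_nonneg _), ofReal_norm]

theorem er_tendsto {A B : ℕ → ℝ≥0∞} (hA : ∑' i, A i ≠ ⊤) (hB : ∑' i, B i ≠ ⊤) :
    Tendsto (er A B) atTop (𝓝 0) := by
  have h1 := ENNReal.tendsto_sum_nat_add A hA
  have h2 := ENNReal.tendsto_sum_nat_add B hB
  have h3 : Tendsto (fun m => (∑' k, A (k + m)) * (∑' j, B j) + (∑' i, A i) * ∑' k, B (k + m))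
      atTop (𝓝 (0 * (∑' j, B j) + (∑' i, A i) * 0)) :=
    (ENNReal.Tendsto.mul_const h1 (Or.inr hB)).add (ENNReal.Tendsto.const_mul h2 (Or.inr hA))
  rw [zero_mul, mul_zero, add_zero] at h3
  have h4 := (ENNReal.tendsto_toReal ENNReal.zero_ne_top).comp h3
  have h5 := (Real.continuous_sqrt.tendsto _).comp h4
  rw [ENNReal.toReal_zero, Real.sqrt_zero] at h5
  exact h5

theorem er_le {A B : ℕ → ℝ≥0∞} (hA : ∑' i, A i ≠ ⊤) (hB : ∑' i, B i ≠ ⊤) (m : ℕ) :
    ENNReal.ofReal (er A B m) ≤ (∑' i, A i) + ∑' i, B i := by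
  refine ENNReal.ofReal_le_of_le_toReal ?_
  rw [ENNReal.toReal_add hA hB]
  unfold er
  refine Real.sqrt_le_iff.2 ⟨add_nonneg ENNReal.toReal_nonneg ENNReal.toReal_nonneg, ?_⟩
  have h1 : ((∑' k, A (k + m)) * (∑' j, B j) + (∑' i, A i) * ∑' k, B (k + m)).toReal ≤
      ((∑' k, A k) * (∑' j, B j) + (∑' i, A i) * ∑' k, B k).toReal := by
    refine ENNReal.toReal_mono ?_ ?_
    · exact ENNReal.add_ne_top.2 ⟨ENNReal.mul_ne_top hA hB, ENNReal.mul_ne_top hA hB⟩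
    · exact add_le_add (mul_le_mul' (tail_le_all A m) le_rfl)
        (mul_le_mul' le_rfl (tail_le_all B m))
  refine h1.trans ?_
  rw [ENNReal.toReal_add (ENNReal.mul_ne_top hA hB) (ENNReal.mul_ne_top hA hB),
    ENNReal.toReal_mul]
  nlinarith [sq_nonneg (∑' k, A k).toReal, sq_nonneg (∑' k, B k).toReal]

theorem lw' (h2 : S_SM) : S_LW := by
  intro S _ μ _ φ hφ u v hu hv
  set F : ℂ → ℕ → ℕ → ℂ := fun z i j => ct φ (v i) (u j) z with hF
  have hsm : ∀ m z, sm φ u v m z = sF (F z) m := fun _ _ => rfl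
  set A : ℂ → ℕ → ℝ≥0∞ := fun z i => ea φ (v i) z with hA
  set B : ℂ → ℕ → ℝ≥0∞ := fun z i => ea φ (u i) z with hB
  have hAm : ∀ i, Measurable (fun z => A z i) := fun i => meas_ea hφ (v i)
  have hBm : ∀ i, Measurable (fun z => B z i) := fun i => meas_ea hφ (u i)
  have hFAB : ∀ z i j, ‖F z i j‖ₑ ^ 2 ≤ A z i * B z j := fun z i j => ct_sq_le hφ (v i) (u j) z
  have hAI : ∀ R : ℝ, (∫⁻ z in ball (0:ℂ) R, ∑' i, A z i) ≠ ⊤ :=
    Pool.Agent.Y604.NK.main_eai S μ φ hφ v hv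
  have hBI : ∀ R : ℝ, (∫⁻ z in ball (0:ℂ) R, ∑' i, B z i) ≠ ⊤ :=
    Pool.Agent.Y604.NK.main_eai S μ φ hφ u hu
  have hae : ∀ A' : ℂ → ℕ → ℝ≥0∞, (∀ i, Measurable (fun z => A' z i)) →
      (∀ R : ℝ, (∫⁻ z in ball (0:ℂ) R, ∑' i, A' z i) ≠ ⊤) → ∀ᵐ z : ℂ, ∑' i, A' z i ≠ ⊤ := by
    intro A' hm hI
    have h1 : ∀ n : ℕ, ∀ᵐ z : ℂ, z ∈ ball (0:ℂ) n → ∑' i, A' z i ≠ ⊤ := by
      intro n
      have h2 := ae_lt_top (μ := volume.restrict (ball (0:ℂ) n))
        (Measurable.ennreal_tsum hm) (hI n)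
      rw [ae_restrict_iff' measurableSet_ball] at h2
      filter_upwards [h2] with z hz hz'
      exact (hz hz').ne
    filter_upwards [ae_all_iff.2 h1] with z hz
    obtain ⟨n, hn⟩ := exists_nat_gt ‖z‖
    exact hz n (by rwa [mem_ball_zero_iff])
  have hgood : ∀ᵐ z : ℂ, ∑' i, A z i ≠ ⊤ ∧ ∑' i, B z i ≠ ⊤ := (hae A hAm hAI).and (hae B hBm hBI)
  set e : ℕ → ℂ → ℝ := fun m z => er (A z) (B z) m with he
  set f : ℕ → ℂ → ℝ := fun m z => min (sm φ u v m z) 1 with hf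
  have hcmp : ∀ z, ∑' i, A z i ≠ ⊤ → ∑' i, B z i ≠ ⊤ → ∀ m n, 1 ≤ m → m ≤ n →
      |f m z - f n z| ≤ e m z := by
    intro z h1 h2 m n hm hmn
    exact cmp (F z) hm hmn (Real.sqrt_nonneg _) (Gm_er (F z) _ _ (hFAB z) h1 h2 m n)
  have hcmp1 : ∀ z, ∑' i, A z i ≠ ⊤ → ∑' i, B z i ≠ ⊤ → ∀ m,
      |sm φ u v (m + 1) z - f (m + 1) z| ≤ e m z := by
    intro z h1 h2 m
    exact cmp1 (F z) m (Real.sqrt_nonneg _) (Gm_er (F z) _ _ (hFAB z) h1 h2 m (m + 1))
  have hsmm : ∀ m, Measurable (sm φ u v (m + 1)) := fun m =>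
    (h2 S μ φ hφ u v (m + 1) (Nat.le_add_left 1 m)).1
  have hfm : ∀ m, Measurable (f (m + 1)) := fun m => (hsmm m).min measurable_const
  have hlim : ∀ᵐ z : ℂ, ∃ l : ℝ, Tendsto (fun m => f (m + 1) z) atTop (𝓝 l) := by
    filter_upwards [hgood] with z hz
    refine cauchySeq_tendsto_of_complete ?_
    refine cauchySeq_of_le_tendsto_0 (fun m => 2 * e (m + 1) z) ?_ ?_
    · intro n m N hn hm
      have h1 := hcmp z hz.1 hz.2 (N + 1) (n + 1) (by omega) (by omega)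
      have h2 := hcmp z hz.1 hz.2 (N + 1) (m + 1) (by omega) (by omega)
      rw [Real.dist_eq]
      have h3 : f (n + 1) z - f (m + 1) z =
          (f (N + 1) z - f (m + 1) z) - (f (N + 1) z - f (n + 1) z) := by ring
      rw [h3]
      have h4 := abs_sub (f (N + 1) z - f (m + 1) z) (f (N + 1) z - f (n + 1) z)
      linarith
    · have h1 := (tendsto_add_atTop_iff_nat 1).2 (er_tendsto hz.1 hz.2)
      have h3 := h1.const_mul 2
      rw [mul_zero] at h3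
      exact h3
  obtain ⟨w₀, hw₀m, hw₀⟩ := measurable_limit_of_tendsto_metrizable_ae
    (fun m => (hfm m).aemeasurable) hlim
  set w : ℂ → ℝ := fun z => max 0 (min 1 (w₀ z)) with hw
  have hwm : Measurable w := measurable_const.max (measurable_const.min hw₀m)
  have hw0 : ∀ z, 0 ≤ w z := fun z => le_max_left _ _
  have hw1 : ∀ z, w z ≤ 1 := fun z => max_le zero_le_one (min_le_left _ _)
  have hf01 : ∀ m z, 0 ≤ f m z ∧ f m z ≤ 1 := fun m z =>
    ⟨le_min (by rw [hsm]; exact sF_nonneg _ _) zero_le_one, min_le_right _ _⟩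
  have hwlim : ∀ᵐ z : ℂ, Tendsto (fun m => f (m + 1) z) atTop (𝓝 (w z)) := by
    filter_upwards [hw₀] with z hz
    have h1 : 0 ≤ w₀ z := ge_of_tendsto hz (Eventually.of_forall fun m => (hf01 _ z).1)
    have h3 : w₀ z ≤ 1 := le_of_tendsto hz (Eventually.of_forall fun m => (hf01 _ z).2)
    have h4 : w z = w₀ z := by
      simp only [hw]
      rw [min_eq_right h3, max_eq_right h1]
    rw [h4]
    exact hz
  have hbound : ∀ᵐ z : ℂ, ∀ m, |sm φ u v (m + 1) z - w z| ≤ e m z + e (m + 1) z := by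
    filter_upwards [hgood, hwlim] with z hz hzl m
    have h1 := hcmp1 z hz.1 hz.2 m
    have h3 : |f (m + 1) z - w z| ≤ e (m + 1) z := by
      have h4 : Tendsto (fun n => |f (m + 1) z - f (n + 1) z|) atTop
          (𝓝 |f (m + 1) z - w z|) := (tendsto_const_nhds.sub hzl).abs
      refine le_of_tendsto h4 ?_
      filter_upwards [eventually_ge_atTop m] with n hn
      exact hcmp z hz.1 hz.2 (m + 1) (n + 1) (by omega) (by omega)
    calc |sm φ u v (m + 1) z - w z|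
        = |(sm φ u v (m + 1) z - f (m + 1) z) + (f (m + 1) z - w z)| := by
          congr 1
          ring
      _ ≤ _ := (abs_add_le _ _).trans (add_le_add h1 h3)
  have hem : ∀ m, Measurable (fun z => ENNReal.ofReal (e m z)) := by
    intro m
    refine ENNReal.measurable_ofReal.comp ?_
    simp only [he, er]
    refine Real.continuous_sqrt.measurable.comp (Measurable.ennreal_toReal ?_)
    exact ((Measurable.ennreal_tsum fun k => hAm (k + m)).mul (Measurable.ennreal_tsum hBm)).add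
      ((Measurable.ennreal_tsum hAm).mul (Measurable.ennreal_tsum fun k => hBm (k + m)))
  have hI : ∀ R : ℝ, Tendsto (fun m => ∫⁻ z in ball (0:ℂ) R, ENNReal.ofReal (e m z)) atTop
      (𝓝 0) := by
    intro R
    have h1 : Tendsto (fun m => ∫⁻ z in ball (0:ℂ) R, ENNReal.ofReal (e m z)) atTop
        (𝓝 (∫⁻ _z in ball (0:ℂ) R, 0)) := by
      refine tendsto_lintegral_of_dominated_convergence
        (fun z => (∑' i, A z i) + ∑' i, B z i) hem ?_ ?_ ?_
      · intro m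
        refine ae_restrict_of_ae ?_
        filter_upwards [hgood] with z hz
        exact er_le hz.1 hz.2 m
      · rw [lintegral_add_left (Measurable.ennreal_tsum hAm)]
        exact ENNReal.add_ne_top.2 ⟨hAI R, hBI R⟩
      · refine ae_restrict_of_ae ?_
        filter_upwards [hgood] with z hz
        have h3 := ENNReal.tendsto_ofReal (er_tendsto hz.1 hz.2)
        rw [ENNReal.ofReal_zero] at h3
        exact h3
    simpa using h1
  refine ⟨w, hwm, hw0, ?_, ?_⟩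
  · -- local integrability
    rw [locallyIntegrable_iff]
    intro K hK
    exact Measure.integrableOn_of_bounded (M := 1) hK.measure_lt_top.ne
      hwm.aestronglyMeasurable (Eventually.of_forall fun z => by
        rw [Real.norm_of_nonneg (hw0 z)]
        exact hw1 z)
  · intro R
    refine (tendsto_add_atTop_iff_nat 1).1 ?_
    have h1 := (hI R).add ((tendsto_add_atTop_iff_nat 1).2 (hI R))
    rw [add_zero] at h1
    refine tendsto_of_tendsto_of_tendsto_of_le_of_le tendsto_const_nhds h1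
      (fun m => zero_le) (fun m => ?_)
    show ∫⁻ z in ball (0:ℂ) R, ‖sm φ u v (m + 1) z - w z‖ₑ ≤
      (∫⁻ z in ball (0:ℂ) R, ENNReal.ofReal (e m z)) +
        ∫⁻ z in ball (0:ℂ) R, ENNReal.ofReal (e (m + 1) z)
    rw [← lintegral_add_left (hem m)]
    refine lintegral_mono_ae (ae_restrict_of_ae ?_)
    filter_upwards [hbound] with z hz
    have he0 : ∀ k, 0 ≤ e k z := fun k => Real.sqrt_nonneg _
    rw [← ENNReal.ofReal_add (he0 m) (he0 (m + 1)), ← ofReal_norm, Real.norm_eq_abs]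
    exact ENNReal.ofReal_le_ofReal (hz m)

/-- the statement of the job -/
theorem lw (_h1 : S_CAU) (h2 : S_SM) : S_LW := lw' h2

end Pool.Agent.Q237.TC
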