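import Pool.Agent.Q130.TC.Stm2
import Pool.Agent.Y948.RO.HT
import Pool.Agent.Y510.RO.MV
import Pool.Agent.Y108.RO.CTG

/-!
# Project TC (helper130), job MIN: densities for which the vector `VV` is bounded
-/

set_option autoImplicit false

namespace Pool.Agent.Q237.TC

open MeasureTheory Set Metric Filter Topology
open scoped InnerProductSpace ENNReal NNReal ComplexConjugate
open Pool.Agent.Y283.NK (ct IsMul HasHyp Repr fr)
open Pool.Agent.Y271.RO (ht Bd mv S_HT S_MV S_CTG)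
open Pool.Agent.Q130.TC

/-- a bounded convex set on which every vector has a small inner product with some element
contains a small vector -/
theorem minconv {H : Type} [NormedAddCommGroup H] [InnerProductSpace ℂ H] (W : Set H)
    (hW : ∀ x ∈ W, ∀ y ∈ W, ∀ t : ℝ, 0 ≤ t → t ≤ 1 → ((1 - t : ℝ) : ℂ) • x + (t : ℂ) • y ∈ W)
    (hne : W.Nonempty) (D : ℝ) (hD : ∀ x ∈ W, ‖x‖ ≤ D) (A ε : ℝ) (hA : 0 ≤ A) (hε : 0 < ε)
    (h : ∀ x ∈ W, ∃ y ∈ W, (⟪x, y⟫_ℂ).re ≤ A * ‖x‖) : ∃ x ∈ W, ‖x‖ ≤ A + ε := by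
  by_contra hcon
  push Not at hcon
  obtain ⟨x₁, hx₁⟩ := hne
  have hD0 : 0 ≤ D := (norm_nonneg _).trans (hD x₁ hx₁)
  set d : ℝ := sInf ((fun x => ‖x‖ ^ 2) '' W) with hd
  have hbdd : BddBelow ((fun x => ‖x‖ ^ 2) '' W) := ⟨0, by
    rintro _ ⟨x, -, rfl⟩
    positivity⟩
  have hne' : ((fun x => ‖x‖ ^ 2) '' W).Nonempty := ⟨_, x₁, hx₁, rfl⟩
  set t : ℝ := min 1 (ε ^ 2 / (1 + 4 * D ^ 2)) with ht
  have ht0 : 0 < t := lt_min one_pos (by positivity)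
  have ht1 : t ≤ 1 := min_le_left _ _
  have ht2 : t * (1 + 4 * D ^ 2) ≤ ε ^ 2 := by
    have h1 : t ≤ ε ^ 2 / (1 + 4 * D ^ 2) := min_le_right _ _
    calc t * (1 + 4 * D ^ 2) ≤ ε ^ 2 / (1 + 4 * D ^ 2) * (1 + 4 * D ^ 2) :=
          mul_le_mul_of_nonneg_right h1 (by positivity)
      _ = ε ^ 2 := by field_simp
  obtain ⟨_, ⟨x, hx, rfl⟩, hxd⟩ := Real.lt_sInf_add_pos hne' (show (0:ℝ) < t ^ 2 by positivity)
  have hxd' : ‖x‖ ^ 2 < d + t ^ 2 := hxd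
  obtain ⟨y, hy, hxy⟩ := h x hx
  have h1 : d ≤ ‖((1 - t : ℝ) : ℂ) • x + (t : ℂ) • y‖ ^ 2 :=
    csInf_le hbdd ⟨_, hW x hx y hy t ht0.le ht1, rfl⟩
  have h2 : ‖((1 - t : ℝ) : ℂ) • x + (t : ℂ) • y‖ ^ 2 =
      (1 - t) ^ 2 * ‖x‖ ^ 2 + 2 * ((1 - t) * t * (⟪x, y⟫_ℂ).re) + t ^ 2 * ‖y‖ ^ 2 := by
    rw [@norm_add_sq ℂ]
    rw [norm_smul, norm_smul, Complex.norm_real, Complex.norm_real, inner_smul_left,
      inner_smul_right, Complex.conj_ofReal, Real.norm_of_nonneg ht0.le,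
      Real.norm_of_nonneg (sub_nonneg.2 ht1)]
    have h3 : RCLike.re (((1 - t : ℝ) : ℂ) * ((t : ℂ) * ⟪x, y⟫_ℂ)) =
        (1 - t) * t * (⟪x, y⟫_ℂ).re := by
      rw [← mul_assoc, ← Complex.ofReal_mul]
      exact Complex.re_ofReal_mul _ _
    rw [h3]
    ring
  rw [h2] at h1
  have hxA := hcon x hx
  have hyD := hD y hy
  have hxD := hD x hx
  have hx0 := norm_nonneg x
  have hy2 : ‖y‖ ^ 2 ≤ D ^ 2 := pow_le_pow_left₀ (norm_nonneg _) hyD 2
  have hx2 : ‖x‖ ^ 2 ≤ D ^ 2 := pow_le_pow_left₀ (norm_nonneg _) hxD 2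
  have h4 : (1 - t) * t * (⟪x, y⟫_ℂ).re ≤ (1 - t) * t * (A * ‖x‖) :=
    mul_le_mul_of_nonneg_left hxy (mul_nonneg (sub_nonneg.2 ht1) ht0.le)
  -- `2 t ‖x‖ (‖x‖ - A) ≤ t² (1 + …)`
  have h5 : 2 * t * (‖x‖ * (‖x‖ - A)) ≤ t ^ 2 * (1 + 2 * D ^ 2) := by
    nlinarith [mul_nonneg hA hx0, sq_nonneg t, mul_nonneg (sq_nonneg t) (mul_nonneg hA hx0)]
  have h6 : ε ^ 2 ≤ ‖x‖ * (‖x‖ - A) := by nlinarith
  have h7 : 2 * t * ε ^ 2 ≤ t * ε ^ 2 := by
    calc 2 * t * ε ^ 2 ≤ 2 * t * (‖x‖ * (‖x‖ - A)) :=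
          mul_le_mul_of_nonneg_left h6 (by positivity)
      _ ≤ t ^ 2 * (1 + 2 * D ^ 2) := h5
      _ ≤ t * (t * (1 + 4 * D ^ 2)) := by nlinarith [sq_nonneg D, sq_nonneg t, mul_nonneg (sq_nonneg t) (sq_nonneg D)]
      _ ≤ t * ε ^ 2 := mul_le_mul_of_nonneg_left ht2 ht0.le
  nlinarith [mul_pos ht0 (pow_pos hε 2)]

/-- the square of the norm in `L²` -/
theorem int_sq {S : Type} [MeasurableSpace S] {μ : Measure S} (f : Lp ℂ 2 μ) :
    Integrable (fun s => ‖f s‖ ^ 2) μ ∧ ∫ s, ‖f s‖ ^ 2 ∂μ = ‖f‖ ^ 2 := by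
  have h1 : Integrable (fun s => ‖f s‖ ^ 2) μ :=
    (memLp_two_iff_integrable_sq_norm (Lp.aestronglyMeasurable f)).1 (Lp.memLp f)
  refine ⟨h1, ?_⟩
  rw [integral_eq_lintegral_of_nonneg_ae (Eventually.of_forall fun s => sq_nonneg _)
    h1.aestronglyMeasurable]
  have h2 : ∀ s, ENNReal.ofReal (‖f s‖ ^ 2) = ‖f s‖ₑ ^ 2 := fun s => by
    rw [ENNReal.ofReal_pow (norm_nonneg _), ofReal_norm]
  simp only [h2]
  rw [Pool.Agent.Y604.NK.lint_sq, ENNReal.toReal_ofReal (sq_nonneg _)]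

theorem le_nm {m : ℕ} (c : ℕ → ℂ) {j : ℕ} (hj : j < m) : ‖c j‖ ≤ nm m c := by
  unfold nm
  refine Real.le_sqrt_of_sq_le ?_
  exact Finset.single_le_sum (f := fun i => ‖c i‖ ^ 2) (fun i _ => sq_nonneg _)
    (Finset.mem_range.2 hj)

theorem sum_le_nm (m : ℕ) (c d : ℕ → ℂ) :
    ‖∑ j ∈ Finset.range m, c j * d j‖ ≤ nm m c * nm m d := by
  refine (norm_sum_le _ _).trans ?_
  unfold nm
  refine le_trans (le_of_eq (Finset.sum_congr rfl fun j _ => norm_mul _ _)) ?_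
  exact Real.sum_mul_le_sqrt_mul_sqrt _ _ _

section

variable {S : Type} [MeasurableSpace S] {μ : Measure S} [SigmaFinite μ] {φ : S → ℂ}
  {N : Lp ℂ 2 μ →L[ℂ] Lp ℂ 2 μ}

theorem bdG {m : ℕ} {g : ℂ → ℝ} {B ρ : ℝ} {a : ℂ} (hg : Measurable g)
    (hgB : ∀ z, 0 ≤ g z ∧ g z ≤ B) (hg0 : ∀ z, z ∉ ball a ρ → g z = 0) {c : ℕ → ℂ → ℂ}
    (hc : ∀ j, Measurable (c j)) (hc1 : ∀ z, nm m (fun j => c j z) ≤ 1) {j : ℕ} (hj : j < m) :
    Bd (fun z => (g z : ℂ) * c j z) a ρ B where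
  meas := (Complex.measurable_ofReal.comp hg).mul (hc j)
  nonneg := (hgB 0).1.trans (hgB 0).2
  bd := fun z => by
    rw [norm_mul, Complex.norm_real, Real.norm_of_nonneg (hgB z).1]
    have h1 : ‖c j z‖ ≤ 1 := (le_nm (fun j => c j z) hj).trans (hc1 z)
    calc g z * ‖c j z‖ ≤ g z * 1 := mul_le_mul_of_nonneg_left h1 (hgB z).1
      _ ≤ B := by rw [mul_one]; exact (hgB z).2
  supp := fun z hz => by
    show (g z : ℂ) * c j z = 0
    rw [hg0 z hz]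
    simp

/-- inner products of the vectors `∑ mv φ (u j) (ht (G j))` -/
theorem inner_Y (hN : IsMul φ N) (u : ℕ → Lp ℂ 2 μ) (m : ℕ) {ρ B : ℝ} {a : ℂ} (hρ : 0 < ρ)
    (G : ℕ → ℂ → ℂ) (hG : ∀ j < m, Bd (G j) a ρ B) (X : Lp ℂ 2 μ) :
    ⟪X, ∑ j ∈ Finset.range m, mv φ (u j) (ht (G j))⟫_ℂ =
      ∑ j ∈ Finset.range m, ∫ z, G j z * ct φ X (u j) z := by
  rw [inner_sum]
  refine Finset.sum_congr rfl fun j hj => ?_
  have hb := hG j (Finset.mem_range.1 hj)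
  obtain ⟨K, hK, h1⟩ := Pool.Agent.Y948.RO.main ρ hρ
  obtain ⟨-, h2, -, h3, -⟩ := h1 a B (G j) hb
  obtain ⟨-, -, -, h4⟩ := Pool.Agent.Y510.RO.MV.main S μ φ N hN (u j) (ht (G j)) (K * B) h2
    (mul_nonneg hK hb.nonneg) (fun s => h3 _)
  rw [h4 X]
  exact ((Pool.Agent.Y108.RO.main S μ φ hN.meas X (u j)).2.2 a ρ B (G j) hb).2

theorem norm_Y (hN : IsMul φ N) (u : ℕ → Lp ℂ 2 μ) (m : ℕ) {ρ : ℝ} (hρ : 0 < ρ) :
    ∃ K : ℝ, 0 ≤ K ∧ ∀ (a : ℂ) (B : ℝ) (G : ℕ → ℂ → ℂ), (∀ j < m, Bd (G j) a ρ B) →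
    ‖∑ j ∈ Finset.range m, mv φ (u j) (ht (G j))‖ ≤ K * B * ∑ j ∈ Finset.range m, ‖u j‖ := by
  obtain ⟨K, hK, h1⟩ := Pool.Agent.Y948.RO.main ρ hρ
  refine ⟨K, hK, fun a B G hG => ?_⟩
  refine (norm_sum_le _ _).trans ?_
  rw [Finset.mul_sum]
  refine Finset.sum_le_sum fun j hj => ?_
  have hb := hG j (Finset.mem_range.1 hj)
  obtain ⟨-, h2, -, h3, -⟩ := h1 a B (G j) hb
  obtain ⟨-, h4, -, -⟩ := Pool.Agent.Y510.RO.MV.main S μ φ N hN (u j) (ht (G j)) (K * B) h2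
    (mul_nonneg hK hb.nonneg) (fun s => h3 _)
  exact h4

theorem VV_zero (u : ℕ → Lp ℂ 2 μ) (m : ℕ) (a : ℂ) (g : ℂ → ℝ) (c : ℕ → ℂ → ℂ) :
    VV φ u m a g c 0 = ∑ j ∈ Finset.range m, mv φ (u j) (ht fun z => (g z : ℂ) * c j z) := by
  unfold VV
  simp only [pow_zero, one_mul]

/-- inner products of the vector `VV` -/
theorem inner_VV (hN : IsMul φ N) (u : ℕ → Lp ℂ 2 μ) (m : ℕ) {ρ B : ℝ} {a : ℂ} (hρ : 0 < ρ)
    {g : ℂ → ℝ} (hg : Measurable g) (hgB : ∀ z, 0 ≤ g z ∧ g z ≤ B)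
    (hg0 : ∀ z, z ∉ ball a ρ → g z = 0) {c : ℕ → ℂ → ℂ} (hc : ∀ j, Measurable (c j))
    (hc1 : ∀ z, nm m (fun j => c j z) ≤ 1) (X : Lp ℂ 2 μ) :
    Integrable (fun z => (g z : ℂ) * ∑ j ∈ Finset.range m, c j z * ct φ X (u j) z) ∧
    ⟪X, VV φ u m a g c 0⟫_ℂ =
        ∫ z, (g z : ℂ) * ∑ j ∈ Finset.range m, c j z * ct φ X (u j) z := by
  have hb : ∀ j < m, Bd (fun z => (g z : ℂ) * c j z) a ρ B := fun j hj =>
    bdG hg hgB hg0 hc hc1 hj
  have hi : ∀ j ∈ Finset.range m, Integrable (fun z => (g z : ℂ) * c j z * ct φ X (u j) z) :=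
    fun j hj => ((Pool.Agent.Y108.RO.main S μ φ hN.meas X (u j)).2.2 a ρ B _
      (hb j (Finset.mem_range.1 hj))).1
  have he : ∀ z, (g z : ℂ) * ∑ j ∈ Finset.range m, c j z * ct φ X (u j) z =
      ∑ j ∈ Finset.range m, (g z : ℂ) * c j z * ct φ X (u j) z := fun z => by
    rw [Finset.mul_sum]
    exact Finset.sum_congr rfl fun j _ => by ring
  constructor
  · simp only [he]
    exact integrable_finset_sum _ hi
  · rw [VV_zero, inner_Y hN u m hρ _ hb X]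
    simp only [he]
    rw [integral_finset_sum _ hi]

/-- Cauchy and Schwarz for `∫ √(∑ |X|² |u_j|²)` -/
theorem int_sqrt_le (u : ℕ → Lp ℂ 2 μ) (m : ℕ) (X : Lp ℂ 2 μ) {U : ℝ} (hU : 0 < U)
    (hu : ∑ j ∈ Finset.range m, ‖u j‖ ^ 2 ≤ U ^ 2) (hX : 0 < ‖X‖) :
    ∫ s, √(∑ i : Fin m, ‖conj (X s) * u i s‖ ^ 2) ∂μ ≤ ‖X‖ * U := by
  have h1 : ∀ s, √(∑ i : Fin m, ‖conj (X s) * u i s‖ ^ 2) ≤
      (U / (2 * ‖X‖)) * ‖X s‖ ^ 2 + (‖X‖ / (2 * U)) * ∑ i : Fin m, ‖u i s‖ ^ 2 := by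
    intro s
    have h2 : ∑ i : Fin m, ‖conj (X s) * u i s‖ ^ 2 = ‖X s‖ ^ 2 * ∑ i : Fin m, ‖u i s‖ ^ 2 := by
      rw [Finset.mul_sum]
      refine Finset.sum_congr rfl fun i _ => ?_
      rw [norm_mul, RCLike.norm_conj, mul_pow]
    rw [h2]
    set A := ‖X s‖ ^ 2
    set Bq := ∑ i : Fin m, ‖u i s‖ ^ 2
    have hA : 0 ≤ A := sq_nonneg _
    have hB : 0 ≤ Bq := Finset.sum_nonneg fun i _ => sq_nonneg _
    refine Real.sqrt_le_iff.2 ⟨by positivity, ?_⟩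
    have h3 : (U / (2 * ‖X‖) * A) * (‖X‖ / (2 * U) * Bq) = A * Bq / 4 := by
      field_simp
      ring
    nlinarith [sq_nonneg (U / (2 * ‖X‖) * A - ‖X‖ / (2 * U) * Bq)]
  have hi1 : Integrable (fun s => (U / (2 * ‖X‖)) * ‖X s‖ ^ 2) μ := (int_sq X).1.const_mul _
  have hi2 : Integrable (fun s => (‖X‖ / (2 * U)) * ∑ i : Fin m, ‖u i s‖ ^ 2) μ :=
    Integrable.const_mul (integrable_finset_sum (Finset.univ : Finset (Fin m))
      fun i _ => (int_sq (u (i : ℕ))).1) _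
  calc ∫ s, √(∑ i : Fin m, ‖conj (X s) * u i s‖ ^ 2) ∂μ
      ≤ ∫ s, ((U / (2 * ‖X‖)) * ‖X s‖ ^ 2 + (‖X‖ / (2 * U)) * ∑ i : Fin m, ‖u i s‖ ^ 2) ∂μ :=
        integral_mono_of_nonneg (Eventually.of_forall fun s => Real.sqrt_nonneg _)
          (hi1.add hi2) (Eventually.of_forall h1)
    _ = U / (2 * ‖X‖) * ‖X‖ ^ 2 + ‖X‖ / (2 * U) * ∑ j ∈ Finset.range m, ‖u j‖ ^ 2 := by
        rw [integral_add hi1 hi2, integral_const_mul, integral_const_mul, (int_sq X).2,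
          integral_finset_sum (Finset.univ : Finset (Fin m)) fun i _ => (int_sq (u (i : ℕ))).1]
        simp only [(int_sq _).2]
        rw [Fin.sum_univ_eq_sum_range (fun i => ‖u i‖ ^ 2) m]
    _ ≤ U / (2 * ‖X‖) * ‖X‖ ^ 2 + ‖X‖ / (2 * U) * U ^ 2 := by gcongr
    _ = ‖X‖ * U := by field_simp; ring

end

theorem min_main (_h1 : S_CAU) (h2 : S_MZ) : S_MIN := by
  obtain ⟨C₀, hC₀, hMZ⟩ := h2
  refine ⟨4 * C₀, by linarith, ?_⟩
  intro S _ μ _ φ N hN u m U₀ hU₀ hU h C δ ρ₀ B a hm hB hsupp₀ hC hδ hWT hδM c hcm hc1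
  -- a positive radius
  obtain ⟨ρ, hρ, hsupp⟩ : ∃ ρ : ℝ, 0 < ρ ∧ ∀ z, z ∉ ball a ρ → h z = 0 :=
    ⟨max ρ₀ 1, lt_max_of_lt_right one_pos, fun z hz => hsupp₀ z fun h' =>
      hz (ball_subset_ball (le_max_left _ _) h')⟩
  have hB0 : 0 ≤ B := (hB 0).1.trans (hB 0).2
  have hhi : Integrable h := by
    have h1 : IntegrableOn h (ball a ρ) :=
      Measure.integrableOn_of_bounded (M := B) measure_ball_lt_top.ne
        hm.aestronglyMeasurable (Eventually.of_forall fun z => by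
          rw [Real.norm_of_nonneg (hB z).1]
          exact (hB z).2)
    exact h1.integrable_of_forall_notMem_eq_zero hsupp
  have hgi : ∀ g : ℂ → ℝ, Measurable g → (∀ z, 0 ≤ g z ∧ g z ≤ h z) → Integrable g :=
    fun g hg hgh => hhi.mono' hg.aestronglyMeasurable (Eventually.of_forall fun z => by
      rw [Real.norm_of_nonneg (hgh z).1]
      exact (hgh z).2)
  have hgB : ∀ g : ℂ → ℝ, (∀ z, 0 ≤ g z ∧ g z ≤ h z) → ∀ z, 0 ≤ g z ∧ g z ≤ B :=
    fun g hgh z => ⟨(hgh z).1, (hgh z).2.trans (hB z).2⟩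
  have hg0 : ∀ g : ℂ → ℝ, (∀ z, 0 ≤ g z ∧ g z ≤ h z) → ∀ z, z ∉ ball a ρ → g z = 0 :=
    fun g hgh z hz => le_antisymm ((hgh z).2.trans (hsupp z hz).le) (hgh z).1
  have hin : ∀ g : ℂ → ℝ, Measurable g → (∀ z, 0 ≤ g z ∧ g z ≤ h z) → ∀ X : Lp ℂ 2 μ,
      Integrable (fun z => (g z : ℂ) * ∑ j ∈ Finset.range m, c j z * ct φ X (u j) z) ∧
      ⟪X, VV φ u m a g c 0⟫_ℂ =
        ∫ z, (g z : ℂ) * ∑ j ∈ Finset.range m, c j z * ct φ X (u j) z :=
    fun g hg hgh X => inner_VV hN u m hρ hg (hgB g hgh) (hg0 g hgh) hcm hc1 X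
  set M : ℝ := ∫ z, h z with hM
  have hM0 : 0 ≤ M := integral_nonneg fun z => (hB z).1
  have hhh : ∀ z, 0 ≤ h z ∧ h z ≤ h z := fun z => ⟨(hB z).1, le_rfl⟩
  rcases hM0.eq_or_lt with hM00 | hMpos
  · -- `h = 0` almost everywhere
    refine ⟨h, hm, hhh, by linarith, ?_⟩
    have h0 : h =ᵐ[volume] 0 :=
      (integral_eq_zero_iff_of_nonneg (fun z => (hB z).1) hhi).1 hM00.symm
    have h3 : ⟪VV φ u m a h c 0, VV φ u m a h c 0⟫_ℂ = 0 := by
      rw [(hin h hm hhh _).2]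
      refine integral_eq_zero_of_ae ?_
      filter_upwards [h0] with z hz
      show (h z : ℂ) * _ = 0
      rw [hz]
      simp
    rw [inner_self_eq_zero.1 h3, norm_zero]
    have : 0 ≤ 4 * C₀ * C * U₀ := by positivity
    linarith
  -- the convex set
  set W : Set (Lp ℂ 2 μ) := {V | ∃ g : ℂ → ℝ, Measurable g ∧ (∀ z, 0 ≤ g z ∧ g z ≤ h z) ∧
    M / 2 ≤ ∫ z, g z ∧ V = VV φ u m a g c 0} with hW
  obtain ⟨K, hK, hKn⟩ := norm_Y hN u m hρ
  -- a slightly larger bound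
  set U : ℝ := U₀ + 1 / (8 * C₀ * C) with hUdef
  have hCC : 0 < C₀ := by linarith
  have hUpos : 0 < U := by positivity
  have hUU : ∑ j ∈ Finset.range m, ‖u j‖ ^ 2 ≤ U ^ 2 := hU.trans (by
    refine pow_le_pow_left₀ hU₀ ?_ 2
    rw [hUdef]
    have : 0 ≤ 1 / (8 * C₀ * C) := by positivity
    linarith)
  have key : ∃ x ∈ W, ‖x‖ ≤ 4 * C₀ * C * U + 1 / 2 := by
    refine minconv W ?_ ⟨_, h, hm, hhh, by linarith, rfl⟩
      (K * B * ∑ j ∈ Finset.range m, ‖u j‖) ?_ (4 * C₀ * C * U) (1 / 2) (by positivity)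
      (by norm_num) ?_
    · -- convexity
      rintro _ ⟨g₁, hg₁, hgh₁, hi₁, rfl⟩ _ ⟨g₂, hg₂, hgh₂, hi₂, rfl⟩ t ht0 ht1
      have ht1' : 0 ≤ 1 - t := sub_nonneg.2 ht1
      have hgm : Measurable (fun z => (1 - t) * g₁ z + t * g₂ z) :=
        (hg₁.const_mul _).add (hg₂.const_mul _)
      have hgh : ∀ z, 0 ≤ (1 - t) * g₁ z + t * g₂ z ∧ (1 - t) * g₁ z + t * g₂ z ≤ h z := by
        intro z
        have e1 := mul_nonneg ht1' (hgh₁ z).1
        have e2 := mul_nonneg ht0 (hgh₂ z).1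
        have e3 := mul_le_mul_of_nonneg_left (hgh₁ z).2 ht1'
        have e4 := mul_le_mul_of_nonneg_left (hgh₂ z).2 ht0
        constructor
        · linarith
        · nlinarith
      have hi : ∫ z, ((1 - t) * g₁ z + t * g₂ z) = (1 - t) * (∫ z, g₁ z) + t * ∫ z, g₂ z := by
        rw [integral_add ((hgi g₁ hg₁ hgh₁).const_mul _) ((hgi g₂ hg₂ hgh₂).const_mul _),
          integral_const_mul, integral_const_mul]
      refine ⟨fun z => (1 - t) * g₁ z + t * g₂ z, hgm, hgh, ?_, ?_⟩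
      · rw [hi]
        have e1 := mul_le_mul_of_nonneg_left hi₁ ht1'
        have e2 := mul_le_mul_of_nonneg_left hi₂ ht0
        nlinarith
      · refine ext_inner_left ℂ fun X => ?_
        rw [(hin _ hgm hgh X).2, inner_add_right, inner_smul_right, inner_smul_right,
          (hin g₁ hg₁ hgh₁ X).2, (hin g₂ hg₂ hgh₂ X).2, ← integral_const_mul,
          ← integral_const_mul,
          ← integral_add ((hin g₁ hg₁ hgh₁ X).1.const_mul _) ((hin g₂ hg₂ hgh₂ X).1.const_mul _)]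
        refine integral_congr_ae (Eventually.of_forall fun z => ?_)
        show ((1 - t : ℝ) : ℂ) * ((g₁ z : ℂ) * _) + (t : ℂ) * ((g₂ z : ℂ) * _) =
          (((1 - t) * g₁ z + t * g₂ z : ℝ) : ℂ) * _
        push_cast
        ring
    · -- boundedness
      rintro _ ⟨g, hg, hgh, -, rfl⟩
      rw [VV_zero]
      exact hKn a B _ fun j hj => bdG hg (hgB g hgh) (hg0 g hgh) hcm hc1 hj
    · -- the functional
      intro X hX
      rcases (norm_nonneg X).eq_or_lt with hX0 | hXpos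
      · refine ⟨X, hX, ?_⟩
        rw [norm_eq_zero.1 hX0.symm, inner_zero_left]
        simp
      set F : ℕ → ℂ → ℂ := fun j z => ct φ X (u j) z with hF
      set Λ : ℝ := 4 * C₀ * C * U * ‖X‖ / M with hΛ
      have hΛ0 : 0 < Λ := by positivity
      have hmF : Measurable (fun z => nm m fun j => F j z) := by
        unfold nm
        refine Real.continuous_sqrt.measurable.comp (Finset.measurable_sum _ fun j _ => ?_)
        exact ((Pool.Agent.Y108.RO.main S μ φ hN.meas X (u j)).1.norm).pow_const 2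
      have hmz := hMZ h C δ hhi (fun z => (hB z).1) hC.le hδ hWT (Fin m) S μ φ
        (fun i s => conj (X s) * u i s) hN.meas (fun i => by
          have h1 : Integrable (fun s => ⟪X s, u i s⟫_ℂ) μ := L2.integrable_inner X (u i)
          refine h1.congr (Eventually.of_forall fun s => ?_)
          show ⟪X s, u i s⟫_ℂ = conj (X s) * u i s
          rw [RCLike.inner_apply]
          ring) Λ hΛ0
      have hset : {z | Λ ≤ √(∑ i : Fin m, ‖cau μ φ (fun s => conj (X s) * u i s) z‖ ^ 2)} =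
          {z | Λ ≤ nm m fun j => F j z} := by
        ext z
        have h1 : ∑ i : Fin m, ‖cau μ φ (fun s => conj (X s) * u i s) z‖ ^ 2 =
            ∑ j ∈ Finset.range m, ‖F j z‖ ^ 2 :=
          Fin.sum_univ_eq_sum_range (fun i => ‖F i z‖ ^ 2) m
        simp only [mem_setOf_eq, nm]
        rw [h1]
      rw [hset] at hmz
      have hI := int_sqrt_le u m X hUpos hUU hXpos
      set Q : Set ℂ := {z | Λ ≤ nm m fun j => F j z} with hQ
      have hQm : MeasurableSet Q := measurableSet_le measurable_const hmF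
      have hQle : ∫ z in Q, h z ≤ M / 2 := by
        have h3 : C * (∫ s, √(∑ i : Fin m, ‖conj (X s) * u i s‖ ^ 2) ∂μ) / Λ ≤
            C * (‖X‖ * U) / Λ := by gcongr
        have h4 : C * (‖X‖ * U) / Λ = M / (4 * C₀) := by
          rw [hΛ]
          field_simp
        have h5 : C₀ * (C * (∫ s, √(∑ i : Fin m, ‖conj (X s) * u i s‖ ^ 2) ∂μ) / Λ + δ) ≤
            C₀ * (M / (4 * C₀) + δ) := by
          refine mul_le_mul_of_nonneg_left ?_ hCC.le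
          linarith
        have h6 : C₀ * (M / (4 * C₀) + δ) = M / 4 + C₀ * δ := by
          field_simp
        linarith
      have hgh : ∀ z, 0 ≤ Qᶜ.indicator h z ∧ Qᶜ.indicator h z ≤ h z := by
        intro z
        by_cases hz : z ∈ Qᶜ
        · rw [indicator_of_mem hz]
          exact hhh z
        · rw [indicator_of_notMem hz]
          exact ⟨le_rfl, (hB z).1⟩
      have hgm : Measurable (Qᶜ.indicator h) := hm.indicator hQm.compl
      have hgM : ∫ z, Qᶜ.indicator h z = M - ∫ z in Q, h z := by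
        rw [integral_indicator hQm.compl, hM, ← integral_add_compl hQm hhi]
        ring
      refine ⟨_, ⟨Qᶜ.indicator h, hgm, hgh, by rw [hgM]; linarith, rfl⟩, ?_⟩
      refine (Complex.re_le_norm _).trans ?_
      rw [(hin _ hgm hgh X).2]
      have h7 : ∀ z, ‖((Qᶜ.indicator h z : ℝ) : ℂ) * ∑ j ∈ Finset.range m, c j z * ct φ X (u j) z‖
          ≤ h z * Λ := by
        intro z
        by_cases hz : z ∈ Qᶜ
        · rw [indicator_of_mem hz, norm_mul, Complex.norm_real, Real.norm_of_nonneg (hB z).1]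
          refine mul_le_mul_of_nonneg_left ?_ (hB z).1
          refine (sum_le_nm m (fun j => c j z) (fun j => F j z)).trans ?_
          have h8 : nm m (fun j => F j z) ≤ Λ := by
            have : ¬ Λ ≤ nm m fun j => F j z := hz
            exact (not_le.1 this).le
          have h9 : 0 ≤ nm m (fun j => F j z) := Real.sqrt_nonneg _
          calc nm m (fun j => c j z) * nm m (fun j => F j z) ≤ 1 * Λ :=
                mul_le_mul (hc1 z) h8 h9 zero_le_one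
            _ = Λ := one_mul _
        · rw [indicator_of_notMem hz]
          simp only [Complex.ofReal_zero, zero_mul, norm_zero]
          exact mul_nonneg (hB z).1 hΛ0.le
      refine (norm_integral_le_of_norm_le (hhi.mul_const Λ) (Eventually.of_forall h7)).trans ?_
      rw [integral_mul_const, ← hM, hΛ]
      have : M * (4 * C₀ * C * U * ‖X‖ / M) = 4 * C₀ * C * U * ‖X‖ := by
        field_simp
      exact this.le
  obtain ⟨_, ⟨g, hg, hgh, hgM, rfl⟩, hx⟩ := key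
  refine ⟨g, hg, hgh, hgM, hx.trans ?_⟩
  have h9 : 4 * C₀ * C * U = 4 * C₀ * C * U₀ + 1 / 2 := by
    rw [hUdef]
    field_simp
    ring
  linarith

end Pool.Agent.Q237.TC
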