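import Pool.Agent.Q130.TC.Stm2

/-!
# Project TC (helper130), job LW: comparison of the smallest singular values of sections of a matrix
-/

set_option autoImplicit false

namespace Pool.Agent.Q237.TC

open MeasureTheory Set Metric Filter Topology
open scoped InnerProductSpace ENNReal NNReal ComplexConjugate
open Pool.Agent.Q130.TC (nm)

theorem nm_nonneg (m : ℕ) (c : ℕ → ℂ) : 0 ≤ nm m c := Real.sqrt_nonneg _

theorem nm_sq (m : ℕ) (c : ℕ → ℂ) : nm m c ^ 2 = ∑ i ∈ Finset.range m, ‖c i‖ ^ 2 :=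
  Real.sq_sqrt (Finset.sum_nonneg fun _ _ => sq_nonneg _)

theorem nm_congr {m : ℕ} {c d : ℕ → ℂ} (h : ∀ i < m, c i = d i) : nm m c = nm m d := by
  unfold nm
  congr 1
  exact Finset.sum_congr rfl fun i hi => by rw [h i (Finset.mem_range.1 hi)]

theorem nm_eq (m : ℕ) (c : ℕ → ℂ) :
    nm m c = ‖(WithLp.toLp 2 (fun i : Fin m => c i) : EuclideanSpace ℂ (Fin m))‖ := by
  rw [EuclideanSpace.norm_eq]
  unfold nm
  rw [Finset.sum_range]

theorem nm_add_le (m : ℕ) (c d : ℕ → ℂ) : nm m (fun i => c i + d i) ≤ nm m c + nm m d := by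
  have h1 : (WithLp.toLp 2 (fun i : Fin m => c i + d i) : EuclideanSpace ℂ (Fin m)) =
      WithLp.toLp 2 (fun i : Fin m => c i) + WithLp.toLp 2 (fun i : Fin m => d i) := rfl
  rw [nm_eq m c, nm_eq m d, nm_eq m (fun i => c i + d i), h1]
  exact norm_add_le _ _

theorem nm_sub_le (m : ℕ) (c d : ℕ → ℂ) : nm m (fun i => c i - d i) ≤ nm m c + nm m d := by
  have h1 : (WithLp.toLp 2 (fun i : Fin m => c i - d i) : EuclideanSpace ℂ (Fin m)) =
      WithLp.toLp 2 (fun i : Fin m => c i) - WithLp.toLp 2 (fun i : Fin m => d i) := rfl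
  rw [nm_eq m c, nm_eq m d, nm_eq m (fun i => c i - d i), h1]
  exact norm_sub_le _ _

theorem nm_mul (m : ℕ) (a : ℂ) (c : ℕ → ℂ) : nm m (fun i => a * c i) = ‖a‖ * nm m c := by
  have h1 : nm m (fun i => a * c i) ^ 2 = (‖a‖ * nm m c) ^ 2 := by
    rw [nm_sq, mul_pow, nm_sq, Finset.mul_sum]
    exact Finset.sum_congr rfl fun i _ => by rw [norm_mul, mul_pow]
  exact (sq_eq_sq₀ (nm_nonneg _ _) (mul_nonneg (norm_nonneg _) (nm_nonneg _ _))).1 h1

/-- the vector `(1 - F) c` -/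
noncomputable def AF (F : ℕ → ℕ → ℂ) (m : ℕ) (c : ℕ → ℂ) (i : ℕ) : ℂ :=
  c i - ∑ j ∈ Finset.range m, F i j * c j

/-- the smallest singular value of `1 - F` -/
noncomputable def sF (F : ℕ → ℕ → ℂ) (m : ℕ) : ℝ :=
  sInf {t | ∃ c : ℕ → ℂ, nm m c = 1 ∧ nm m (AF F m c) = t}

/-- the part of the matrix off the square of side `m` -/
noncomputable def Gm (F : ℕ → ℕ → ℂ) (m : ℕ) (i j : ℕ) : ℂ := by
  classical exact if m ≤ i ∨ m ≤ j then F i j else 0

/-- the main part of `(1 - F) c` -/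
noncomputable def XF (F : ℕ → ℕ → ℂ) (m : ℕ) (c : ℕ → ℂ) (i : ℕ) : ℂ :=
  c i - if i < m then ∑ j ∈ Finset.range m, F i j * c j else 0

theorem split (F : ℕ → ℕ → ℂ) {m n : ℕ} (hmn : m ≤ n) (c : ℕ → ℂ) (i : ℕ) :
    AF F n c i = XF F m c i - ∑ j ∈ Finset.range n, Gm F m i j * c j := by
  unfold AF XF Gm
  have h1 : ∑ j ∈ Finset.range n, F i j * c j =
      (if i < m then ∑ j ∈ Finset.range m, F i j * c j else 0) +
      ∑ j ∈ Finset.range n, (if m ≤ i ∨ m ≤ j then F i j else 0) * c j := by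
    by_cases hi : i < m
    · rw [if_pos hi]
      have h2 : ∑ j ∈ Finset.range m, F i j * c j =
          ∑ j ∈ Finset.range n, (if j < m then F i j * c j else 0) := by
        rw [← Finset.sum_filter]
        refine Finset.sum_congr ?_ fun _ _ => rfl
        ext j
        simp only [Finset.mem_range, Finset.mem_filter]
        omega
      rw [h2, ← Finset.sum_add_distrib]
      refine Finset.sum_congr rfl fun j _ => ?_
      by_cases hj : j < m
      · rw [if_pos hj, if_neg (by omega)]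
        ring
      · rw [if_neg hj, if_pos (by omega)]
        ring
    · rw [if_neg hi, zero_add]
      refine Finset.sum_congr rfl fun j _ => ?_
      rw [if_pos (Or.inl (not_lt.1 hi))]
  rw [h1]
  ring

theorem Gm_le (F : ℕ → ℕ → ℂ) (m n : ℕ) {e : ℝ} (he : 0 ≤ e)
    (h : ∑ i ∈ Finset.range n, ∑ j ∈ Finset.range n, ‖Gm F m i j‖ ^ 2 ≤ e ^ 2) (c : ℕ → ℂ) :
    nm n (fun i => ∑ j ∈ Finset.range n, Gm F m i j * c j) ≤ e * nm n c := by
  refine le_of_sq_le_sq ?_ (mul_nonneg he (nm_nonneg _ _))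
  rw [nm_sq, mul_pow]
  calc ∑ i ∈ Finset.range n, ‖∑ j ∈ Finset.range n, Gm F m i j * c j‖ ^ 2
      ≤ ∑ i ∈ Finset.range n, (∑ j ∈ Finset.range n, ‖Gm F m i j‖ ^ 2) * nm n c ^ 2 := by
        refine Finset.sum_le_sum fun i _ => ?_
        have h1 : ‖∑ j ∈ Finset.range n, Gm F m i j * c j‖ ≤
            ∑ j ∈ Finset.range n, ‖Gm F m i j‖ * ‖c j‖ :=
          (norm_sum_le _ _).trans (le_of_eq (Finset.sum_congr rfl fun j _ => norm_mul _ _))
        calc ‖∑ j ∈ Finset.range n, Gm F m i j * c j‖ ^ 2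
            ≤ (∑ j ∈ Finset.range n, ‖Gm F m i j‖ * ‖c j‖) ^ 2 :=
              pow_le_pow_left₀ (norm_nonneg _) h1 2
          _ ≤ (∑ j ∈ Finset.range n, ‖Gm F m i j‖ ^ 2) * ∑ j ∈ Finset.range n, ‖c j‖ ^ 2 :=
              Finset.sum_mul_sq_le_sq_mul_sq _ _ _
          _ = _ := by rw [nm_sq]
    _ = (∑ i ∈ Finset.range n, ∑ j ∈ Finset.range n, ‖Gm F m i j‖ ^ 2) * nm n c ^ 2 := by
        rw [Finset.sum_mul]
    _ ≤ e ^ 2 * nm n c ^ 2 := mul_le_mul_of_nonneg_right h (sq_nonneg _)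

theorem sF_set_nonempty (F : ℕ → ℕ → ℂ) {m : ℕ} (hm : 1 ≤ m) :
    {t | ∃ c : ℕ → ℂ, nm m c = 1 ∧ nm m (AF F m c) = t}.Nonempty := by
  refine ⟨_, Pi.single 0 1, ?_, rfl⟩
  unfold nm
  rw [Finset.sum_eq_single 0]
  · simp
  · intro b _ hb
    rw [Pi.single_eq_of_ne hb]
    simp
  · intro h
    exact absurd (Finset.mem_range.2 (by omega)) h

theorem sF_bdd (F : ℕ → ℕ → ℂ) (m : ℕ) :
    BddBelow {t | ∃ c : ℕ → ℂ, nm m c = 1 ∧ nm m (AF F m c) = t} :=
  ⟨0, by
    rintro _ ⟨c, -, rfl⟩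
    exact nm_nonneg _ _⟩

theorem sF_nonneg (F : ℕ → ℕ → ℂ) (m : ℕ) : 0 ≤ sF F m :=
  Real.sInf_nonneg (by
    rintro _ ⟨c, -, rfl⟩
    exact nm_nonneg _ _)

theorem sF_le (F : ℕ → ℕ → ℂ) {m : ℕ} {c : ℕ → ℂ} (hc : nm m c = 1) :
    sF F m ≤ nm m (AF F m c) := csInf_le (sF_bdd F m) ⟨c, hc, rfl⟩

theorem sF_mul_le (F : ℕ → ℕ → ℂ) (m : ℕ) (c : ℕ → ℂ) :
    sF F m * nm m c ≤ nm m (AF F m c) := by
  rcases (nm_nonneg m c).eq_or_lt with h0 | h0
  · rw [← h0, mul_zero]
    exact nm_nonneg _ _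
  · have h1 : nm m (fun i => ((nm m c)⁻¹ : ℝ) * c i) = 1 := by
      rw [nm_mul, Complex.norm_real, norm_inv, Real.norm_of_nonneg h0.le]
      exact inv_mul_cancel₀ h0.ne'
    have h2 := sF_le F h1
    have h3 : AF F m (fun i => (((nm m c)⁻¹ : ℝ) : ℂ) * c i) =
        fun i => (((nm m c)⁻¹ : ℝ) : ℂ) * AF F m c i := by
      funext i
      unfold AF
      rw [mul_sub, Finset.mul_sum]
      congr 1
      exact Finset.sum_congr rfl fun j _ => by ring
    rw [h3, nm_mul, Complex.norm_real, norm_inv, Real.norm_of_nonneg h0.le] at h2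
    calc sF F m * nm m c ≤ ((nm m c)⁻¹ * nm m (AF F m c)) * nm m c :=
          mul_le_mul_of_nonneg_right h2 h0.le
      _ = nm m (AF F m c) := by field_simp

theorem XF_ge (F : ℕ → ℕ → ℂ) {m n : ℕ} (hmn : m ≤ n) {c : ℕ → ℂ} (hc : nm n c = 1) :
    min (sF F m) 1 ≤ nm n (XF F m c) := by
  have h0 : 0 ≤ min (sF F m) 1 := le_min (sF_nonneg F m) zero_le_one
  refine le_of_sq_le_sq ?_ (nm_nonneg _ _)
  set q := min (sF F m) 1 with hq
  have hq1 : q ≤ 1 := min_le_right _ _
  have hq2 : q ≤ sF F m := min_le_left _ _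
  have e1 : nm n (XF F m c) ^ 2 = nm m (AF F m c) ^ 2 + ∑ i ∈ Finset.Ico m n, ‖c i‖ ^ 2 := by
    rw [nm_sq, nm_sq, ← Finset.sum_range_add_sum_Ico _ hmn]
    congr 1
    · refine Finset.sum_congr rfl fun i hi => ?_
      unfold XF AF
      rw [if_pos (Finset.mem_range.1 hi)]
    · refine Finset.sum_congr rfl fun i hi => ?_
      unfold XF
      rw [if_neg (by
        have := (Finset.mem_Ico.1 hi).1
        omega), sub_zero]
  have e2 : (1:ℝ) = nm m c ^ 2 + ∑ i ∈ Finset.Ico m n, ‖c i‖ ^ 2 := by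
    rw [nm_sq, Finset.sum_range_add_sum_Ico _ hmn, ← nm_sq, hc, one_pow]
  have e3 : q * nm m c ≤ nm m (AF F m c) :=
    (mul_le_mul_of_nonneg_right hq2 (nm_nonneg _ _)).trans (sF_mul_le F m c)
  have e4 : (q * nm m c) ^ 2 ≤ nm m (AF F m c) ^ 2 :=
    pow_le_pow_left₀ (mul_nonneg h0 (nm_nonneg _ _)) e3 2
  have e5 : 0 ≤ ∑ i ∈ Finset.Ico m n, ‖c i‖ ^ 2 := Finset.sum_nonneg fun _ _ => sq_nonneg _
  have e6 : q ^ 2 ≤ 1 := pow_le_one₀ h0 hq1
  rw [e1]
  calc q ^ 2 = q ^ 2 * (nm m c ^ 2 + ∑ i ∈ Finset.Ico m n, ‖c i‖ ^ 2) := by rw [← e2, mul_one]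
    _ = (q * nm m c) ^ 2 + q ^ 2 * ∑ i ∈ Finset.Ico m n, ‖c i‖ ^ 2 := by ring
    _ ≤ nm m (AF F m c) ^ 2 + 1 * ∑ i ∈ Finset.Ico m n, ‖c i‖ ^ 2 :=
        add_le_add e4 (mul_le_mul_of_nonneg_right e6 e5)
    _ = _ := by rw [one_mul]

/-- comparison of two sections -/
theorem cmp (F : ℕ → ℕ → ℂ) {m n : ℕ} (hm : 1 ≤ m) (hmn : m ≤ n) {e : ℝ} (he : 0 ≤ e)
    (h : ∑ i ∈ Finset.range n, ∑ j ∈ Finset.range n, ‖Gm F m i j‖ ^ 2 ≤ e ^ 2) :
    |min (sF F m) 1 - min (sF F n) 1| ≤ e := by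
  rw [abs_le]
  constructor
  · -- `sF n ≤ sF m + e`
    have h1 : sF F n ≤ sF F m + e := by
      rw [← sub_le_iff_le_add]
      refine le_csInf (sF_set_nonempty F hm) ?_
      rintro _ ⟨c, hc, rfl⟩
      rw [sub_le_iff_le_add]
      set c' : ℕ → ℂ := fun i => if i < m then c i else 0 with hc'
      have e0 : nm n c' = 1 := by
        rw [← hc]
        refine (sq_eq_sq₀ (nm_nonneg _ _) (nm_nonneg _ _)).1 ?_
        rw [nm_sq, nm_sq, ← Finset.sum_range_add_sum_Ico _ hmn]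
        have : ∑ i ∈ Finset.Ico m n, ‖c' i‖ ^ 2 = 0 := by
          refine Finset.sum_eq_zero fun i hi => ?_
          have := (Finset.mem_Ico.1 hi).1
          simp only [hc']
          rw [if_neg (by omega)]
          simp
        rw [this, add_zero]
        refine Finset.sum_congr rfl fun i hi => ?_
        simp only [hc']
        rw [if_pos (Finset.mem_range.1 hi)]
      have e1 : nm n (XF F m c') = nm m (AF F m c) := by
        refine (sq_eq_sq₀ (nm_nonneg _ _) (nm_nonneg _ _)).1 ?_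
        rw [nm_sq, nm_sq, ← Finset.sum_range_add_sum_Ico _ hmn]
        have : ∑ i ∈ Finset.Ico m n, ‖XF F m c' i‖ ^ 2 = 0 := by
          refine Finset.sum_eq_zero fun i hi => ?_
          have := (Finset.mem_Ico.1 hi).1
          simp only [XF, hc']
          rw [if_neg (by omega), if_neg (by omega)]
          simp
        rw [this, add_zero]
        refine Finset.sum_congr rfl fun i hi => ?_
        unfold XF AF
        rw [if_pos (Finset.mem_range.1 hi)]
        simp only [hc']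
        rw [if_pos (Finset.mem_range.1 hi)]
        have h2 : ∑ j ∈ Finset.range m, F i j * (if j < m then c j else 0) =
            ∑ j ∈ Finset.range m, F i j * c j :=
          Finset.sum_congr rfl fun j hj => by rw [if_pos (Finset.mem_range.1 hj)]
        rw [h2]
      have e2 := Gm_le F m n he h c'
      rw [e0, mul_one] at e2
      have e3 : nm n (AF F n c') ≤ nm n (XF F m c') +
          nm n (fun i => ∑ j ∈ Finset.range n, Gm F m i j * c' j) := by
        have : AF F n c' = fun i => XF F m c' i - ∑ j ∈ Finset.range n, Gm F m i j * c' j :=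
          funext fun i => split F hmn c' i
        rw [this]
        exact nm_sub_le _ _ _
      have e4 := sF_le F e0
      linarith
    have h2 : min (sF F n) 1 ≤ min (sF F m) 1 + e := by
      rcases le_total (sF F m) 1 with h3 | h3
      · rw [min_eq_left h3]
        exact (min_le_left _ _).trans h1
      · rw [min_eq_right h3]
        have := min_le_right (sF F n) 1
        linarith
    linarith
  · have h1 : min (sF F m) 1 ≤ sF F n + e := by
      rw [← sub_le_iff_le_add]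
      refine le_csInf (sF_set_nonempty F (hm.trans hmn)) ?_
      rintro _ ⟨c, hc, rfl⟩
      rw [sub_le_iff_le_add]
      have e1 := XF_ge F hmn hc
      have e2 := Gm_le F m n he h c
      rw [hc, mul_one] at e2
      have e3 : nm n (XF F m c) ≤ nm n (AF F n c) +
          nm n (fun i => ∑ j ∈ Finset.range n, Gm F m i j * c j) := by
        have : XF F m c = fun i => AF F n c i + ∑ j ∈ Finset.range n, Gm F m i j * c j :=
          funext fun i => by rw [split F hmn c i]; ring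
        rw [this]
        exact nm_add_le _ _ _
      linarith
    have h2 : min (sF F m) 1 ≤ min (sF F n) 1 + e := by
      rcases le_total (sF F n) 1 with h3 | h3
      · rw [min_eq_left h3]
        exact h1
      · rw [min_eq_right h3]
        have := min_le_right (sF F m) 1
        linarith
    linarith

/-- the smallest singular value is not much larger than one -/
theorem cmp1 (F : ℕ → ℕ → ℂ) (m : ℕ) {e : ℝ} (he : 0 ≤ e)
    (h : ∑ i ∈ Finset.range (m + 1), ∑ j ∈ Finset.range (m + 1), ‖Gm F m i j‖ ^ 2 ≤ e ^ 2) :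
    |sF F (m + 1) - min (sF F (m + 1)) 1| ≤ e := by
  have h0 : nm (m + 1) (Pi.single m 1) = 1 := by
    unfold nm
    rw [Finset.sum_eq_single m]
    · simp
    · intro b _ hb
      rw [Pi.single_eq_of_ne hb]
      simp
    · intro h
      exact absurd (Finset.mem_range.2 (by omega)) h
  have e1 : XF F m (Pi.single m 1) = (Pi.single m 1 : ℕ → ℂ) := by
    funext i
    unfold XF
    have : ∑ j ∈ Finset.range m, F i j * (Pi.single m 1 : ℕ → ℂ) j = 0 := by
      refine Finset.sum_eq_zero fun j hj => ?_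
      rw [Pi.single_eq_of_ne (Finset.mem_range.1 hj).ne, mul_zero]
    rw [this]
    simp
  have e2 := Gm_le F m (m + 1) he h (Pi.single m 1)
  rw [h0, mul_one] at e2
  have e3 : nm (m + 1) (AF F (m + 1) (Pi.single m 1)) ≤ nm (m + 1) (XF F m (Pi.single m 1)) +
      nm (m + 1) (fun i => ∑ j ∈ Finset.range (m + 1), Gm F m i j * (Pi.single m 1 : ℕ → ℂ) j) := by
    have : AF F (m + 1) (Pi.single m 1) = fun i => XF F m (Pi.single m 1) i -
        ∑ j ∈ Finset.range (m + 1), Gm F m i j * (Pi.single m 1 : ℕ → ℂ) j :=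
      funext fun i => split F (Nat.le_succ m) _ i
    rw [this]
    exact nm_sub_le _ _ _
  rw [e1, h0] at e3
  have e4 := sF_le F h0
  rw [abs_le]
  constructor
  · have := min_le_left (sF F (m + 1)) 1
    linarith
  · rcases le_total (sF F (m + 1)) 1 with h3 | h3
    · rw [min_eq_left h3]
      linarith
    · rw [min_eq_right h3]
      linarith

end Pool.Agent.Q237.TC
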